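import Mathlib
import Pool.Agent.R904.RW.Lin

/-!
# Zero-cycles and the regulators in weight `dim + 1`: definitions

The regulators of a smooth projective variety `X` over `ℚ` are numbered as follows: `reg X j i` is
the regulator `H_M^{2q-1-i}(X_{/ℤ}, ℚ(q)) → H_D^{2q-1-i}(X_{/ℝ}, ℝ(q))` in the weight
`q = dim X + 1 + j`. So `j = 0` is the weight of Beilinson's conjecture Q1, and `j ≥ 1` are the
higher weights.
-/

set_option autoImplicit false

open CategoryTheory CategoryTheory.Limits AlgebraicGeometry
open Pool.Agent.R904.RW (ext Iso ExactSeq IsSum)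

namespace Pool.Agent.R387.BZ

/-! ### Varieties and cycles -/

/-- A smooth proper variety over `ℚ`: irreducible, but perhaps not geometrically irreducible. -/
structure Var where
  /-- the underlying scheme -/
  X : Scheme.{0}
  /-- the structure morphism -/
  str : X ⟶ Spec (.of ℚ)
  /-- the dimension -/
  dim : ℕ
  smooth : SmoothOfRelativeDimension dim str
  proper : IsProper str
  irred : IrreducibleSpace X

attribute [instance] Var.irred

/-- Cycles with rational coefficients on `X × Y`: finite formal combinations of points of the scheme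
`X × Y`, a point standing for its closure. -/
def Cyc (X Y : Var) : Type := ↥(pullback X.str Y.str) →₀ ℚ

noncomputable instance (X Y : Var) : AddCommGroup (Cyc X Y) :=
  Finsupp.instAddCommGroup

/-- The set of the points of `X × Y` at which the coefficient of the cycle `z` is not zero. -/
def Cyc.points {X Y : Var} (z : Cyc X Y) : Set ↥(pullback X.str Y.str) :=
  {x | (show ↥(pullback X.str Y.str) →₀ ℚ from z) x ≠ 0}

/-- The diagonal of `X × X`. -/
noncomputable def diagonal (X : Var) : Cyc X X :=
  Finsupp.single ((pullback.diagonal X.str) (genericPoint X.X)) 1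

/-- The cycle `z` on `X × Y` lies over a closed subset `A ≠ X` of `X`. -/
def OverProper {X Y : Var} (z : Cyc X Y) : Prop :=
  ∃ A : Set X.X, IsClosed A ∧ A ≠ Set.univ ∧ ∀ x ∈ z.points, (pullback.fst X.str Y.str) x ∈ A

/-- A class of varieties, for example the class of all smooth projective varieties over `ℚ`. -/
structure VarClass where
  mem : Var → Prop

/-- The varieties in the class `S`. -/
structure VarClass.Obj (S : VarClass) where
  V : Var
  mem : S.mem V

/-- the dimension -/
def VarClass.Obj.dim {S : VarClass} (X : S.Obj) : ℕ := X.V.dim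

/-- Rational equivalence of cycles, and the composition of correspondences of degree `0` (a choice of
cycles which represent it). `S` is the class of varieties considered. The correspondence of degree
`0` from `X` to `Y` given by a cycle on `X × Y` is its component of dimension `dim X`. -/
structure CycleData (S : VarClass) where
  /-- the cycles on `X × Y` which are rationally equivalent to zero -/
  rat : ∀ X Y : S.Obj, AddSubgroup (Cyc X.V Y.V)
  /-- the composition of the components of dimension `dim X` of `z` and of dimension `dim Y` of `w`: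
  first `z` from `X` to `Y`, then `w` from `Y` to `Z` -/
  comp : ∀ {X Y Z : S.Obj}, Cyc X.V Y.V → Cyc Y.V Z.V → Cyc X.V Z.V

variable {S : VarClass}

/-- The zero-cycles of `X` come from the varieties `Y t`: there are correspondences `a t` from `X` to
`Y t` and `b t` from `Y t` to `X`, of degree `0`, such that the diagonal of `X` is rationally equivalent to
`∑ b t ∘ a t` plus a cycle which lies over a closed subset `A ≠ X` of the first factor.
(By Bloch and Srinivas this holds if and only if over a universal domain the zero-cycles of `X` with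
rational coefficients are sums of images of zero-cycles of the `Y t` under correspondences.) -/
def ZeroCyclesFrom (C : CycleData S) (X : S.Obj) {ι : Type} [Fintype ι] (Y : ι → S.Obj) : Prop :=
  ∃ (a : ∀ t, Cyc X.V (Y t).V) (b : ∀ t, Cyc (Y t).V X.V) (z : Cyc X.V X.V), OverProper z ∧
    diagonal X.V - ∑ t, C.comp (a t) (b t) - z ∈ C.rat X X

/-- `X` is a direct summand of the `Y t` (as a Chow motive with rational coefficients): the diagonal
of `X` is rationally equivalent to `∑ b t ∘ a t`. For example, if `Y → X` is a surjective morphism of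
varieties, then `X` is a direct summand of `Y`. -/
def SummandOf (C : CycleData S) (X : S.Obj) {ι : Type} [Fintype ι] (Y : ι → S.Obj) : Prop :=
  ∃ (a : ∀ t, Cyc X.V (Y t).V) (b : ∀ t, Cyc (Y t).V X.V),
    diagonal X.V - ∑ t, C.comp (a t) (b t) ∈ C.rat X X

/-- The zero-cycles of `X` come from members of the class `G`. -/
def ZeroCyclesFromClass (C : CycleData S) (G : S.Obj → Prop) (X : S.Obj) : Prop :=
  ∃ (n : ℕ) (Y : Fin n → S.Obj), (∀ t, G (Y t)) ∧ ZeroCyclesFrom C X Y

/-- The zero-cycles of `X` are supported in dimension `≤ r`: they come from varieties of dimension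
`≤ r`. -/
def ZeroCyclesIn (C : CycleData S) (r : ℕ) (X : S.Obj) : Prop :=
  ZeroCyclesFromClass C (fun Y => Y.dim ≤ r) X

/-! ### Regulators -/

/-- A regulator: a homomorphism `r` from a rational vector space to a real vector space. -/
structure Reg where
  M : Type
  D : Type
  [gM : AddCommGroup M]
  [mM : Module ℚ M]
  [gD : AddCommGroup D]
  [mD : Module ℝ D]
  r : M →+ D

attribute [instance] Reg.gM Reg.mM Reg.gD Reg.mD

/-- The maps of regulators: the pairs of linear maps which commute with the regulators. -/
structure RMap (P Q : Reg) where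
  m : P.M →ₗ[ℚ] Q.M
  d : P.D →ₗ[ℝ] Q.D
  comm : ∀ x, Q.r (m x) = d (P.r x)

variable {P Q T : Reg}

/-- `f` is the zero map -/
def RMap.IsZero (f : RMap P Q) : Prop := (∀ x, f.m x = 0) ∧ ∀ x, f.d x = 0

/-- `f` is the identity -/
def RMap.IsId (f : RMap P P) : Prop := (∀ x, f.m x = x) ∧ ∀ x, f.d x = x

/-- `f = g + h` -/
def RMap.IsAdd (f g h : RMap P Q) : Prop :=
  (∀ x, f.m x = g.m x + h.m x) ∧ ∀ x, f.d x = g.d x + h.d x

/-- `f = g ∘ h` -/
def RMap.IsComp (f : RMap P T) (g : RMap Q T) (h : RMap P Q) : Prop :=
  (∀ x, f.m x = g.m (h.m x)) ∧ ∀ x, f.d x = g.d (h.d x)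

/-- `f = ∑ t, b t ∘ a t` -/
def RMap.IsSumComp (f : RMap P Q) {τ : Type} [Fintype τ] {P' : τ → Reg}
    (b : ∀ t, RMap (P' t) Q) (a : ∀ t, RMap P (P' t)) : Prop :=
  (∀ x, f.m x = ∑ t, (b t).m ((a t).m x)) ∧ ∀ x, f.d x = ∑ t, (b t).d ((a t).d x)

/-- The regulator extends to an isomorphism `ℝ ⊗ M → D`. -/
def Reg.IsIso (P : Reg) : Prop := Iso P.r

/-- There is an exact sequence `0 → ℝ ⊗ M → D → ℝ → 0` whose first map extends the regulator. -/
def Reg.IsExact (P : Reg) : Prop := ExactSeq P.r

/-- The regulator `P` is the direct sum of `P₁` and the `P' a`. -/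
def Reg.SumOf (P P₁ : Reg) {ι : Type} (P' : ι → Reg) : Prop := IsSum P.r P₁.r fun a => (P' a).r

/-- Integral motivic cohomology, real Deligne cohomology and regulators, with the action of
correspondences and the trace. -/
structure RegData (S : VarClass) where
  /-- `reg X j i` is the regulator `H_M^{2q-1-i}(X_{/ℤ}, ℚ(q)) → H_D^{2q-1-i}(X_{/ℝ}, ℝ(q))` for
  `q = dim X + 1 + j` -/
  reg : S.Obj → ℕ → ℕ → Reg
  /-- A cycle on `X × Y` acts through its component of dimension `dim X`; this action preserves the
  numbers `j`, `i` (it is `a ↦ pr₂_* (pr₁^* a · z)`). -/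
  act : ∀ {X Y : S.Obj} (j i : ℕ), Cyc X.V Y.V → RMap (reg X j i) (reg Y j i)
  /-- the trace: the push-forward `H_D^{2 dim X + 1}(X_{/ℝ}, ℝ(dim X + 1)) → H_D^1(ℝ(1)) = ℝ` -/
  tr : ∀ X : S.Obj, (reg X 0 0).D →ₗ[ℝ] ℝ

/-- The map `f` is a sum of composites `X → W t → Y` of maps of regulators, where
`dim W t = dim X - e t`, `e t ≥ 1`, and the weight is not changed by `X → W t` (pull-back to the
desingularization `W t` of a closed subset of `X`), so that the number `j` becomes `j + e t`. -/
def Factors (R : RegData S) {X Y : S.Obj} {j i : ℕ} (f : RMap (R.reg X j i) (R.reg Y j i)) : Prop :=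
  ∃ (n : ℕ) (W : Fin n → S.Obj) (e : Fin n → ℕ),
    (∀ t, 1 ≤ e t ∧ (W t).dim + e t = X.dim) ∧
    ∃ (a : ∀ t, RMap (R.reg X j i) (R.reg (W t) (j + e t) i))
      (b : ∀ t, RMap (R.reg (W t) (j + e t) i) (R.reg Y j i)), f.IsSumComp b a

/-- The action of correspondences is additive and functorial, and cycles rationally equivalent to
zero act as zero. -/
structure IsAction (C : CycleData S) (R : RegData S) : Prop where
  add : ∀ {X Y : S.Obj} (j i : ℕ) (z w : Cyc X.V Y.V),
    (R.act j i (z + w)).IsAdd (R.act j i z) (R.act j i w)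
  diag : ∀ (X : S.Obj) (j i : ℕ), (R.act j i (diagonal X.V)).IsId
  comp : ∀ {X Y Z : S.Obj} (j i : ℕ) (z : Cyc X.V Y.V) (w : Cyc Y.V Z.V),
    (R.act j i (C.comp z w)).IsComp (R.act j i w) (R.act j i z)
  rat : ∀ {X Y : S.Obj} (j i : ℕ), ∀ z ∈ C.rat X Y, (R.act j i z).IsZero

/-- The trace of the regulator of an integral element is zero (it is the regulator of an element of
`H_M^1(ℚ_{/ℤ}, ℚ(1)) = ℤ^* ⊗ ℚ = 0`). -/
def TraceOfRegulators (R : RegData S) : Prop :=
  ∀ (X : S.Obj) (x : (R.reg X 0 0).M), R.tr X ((R.reg X 0 0).r x) = 0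

/-- A correspondence multiplies the trace by a number, its degree over `X`. -/
def TraceOfCorrespondences (R : RegData S) : Prop :=
  ∀ {X Y : S.Obj} (z : Cyc X.V Y.V), ∃ δ : ℝ, ∀ x, R.tr Y ((R.act 0 0 z).d x) = δ * R.tr X x

/-- The formal properties of the trace. -/
structure IsTrace (R : RegData S) : Prop where
  surjective : ∀ X : S.Obj, Function.Surjective (R.tr X)
  reg : TraceOfRegulators R
  act : TraceOfCorrespondences R

/-- The formal properties of cycles, motivic cohomology, Deligne cohomology and regulators. -/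
structure IsRegTheory (C : CycleData S) (R : RegData S) : Prop where
  /-- the diagonal is the identity for the composition -/
  comp_diag : ∀ X : S.Obj, C.comp (diagonal X.V) (diagonal X.V) - diagonal X.V ∈ C.rat X X
  action : IsAction C R
  /-- a cycle over a closed subset `A ≠ X` of `X` acts through the desingularization of `A` -/
  factors : ∀ {X Y : S.Obj} (z : Cyc X.V Y.V), OverProper z → ∀ j i, Factors R (R.act j i z)
  /-- the Deligne cohomology vanishes in degrees `> 2 dim X + 1` -/
  top : ∀ (X : S.Obj) (j : ℕ), 1 ≤ j → Subsingleton (R.reg X j 0).D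
  trace : IsTrace R

/-- Q1 for `X`: with `d = dim X + 1`, the regulator in weight `d` and degree `2 d - 1 - i` extends to
an isomorphism `ℝ ⊗ M → D` for `i ≥ 1`, and for `i = 0` there is an exact sequence
`0 → ℝ ⊗ M → D → ℝ → 0` (`X` is connected, `CH^0(X)^*_ℝ = ℝ`). -/
def Q1 (R : RegData S) (X : S.Obj) : Prop :=
  (∀ i : ℕ, 1 ≤ i → (R.reg X 0 i).IsIso) ∧ (R.reg X 0 0).IsExact

/-- The regulators of `X` in all weights `q > dim X + 1` extend to isomorphisms in all degrees
`p < 2 q`. -/
def HighWeights (R : RegData S) (X : S.Obj) : Prop := ∀ j : ℕ, 1 ≤ j → ∀ i : ℕ, (R.reg X j i).IsIso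

/-- `L X = X × P^1`: `H^p(X × P^1, q) = H^p(X, q) ⊕ H^{p-2}(X, q-1)`, and the zero-cycles of `X × P^1`
come from `X`. -/
structure IsLine (C : CycleData S) (R : RegData S) (L : S.Obj → S.Obj) : Prop where
  dim : ∀ X, (L X).dim = X.dim + 1
  sum : ∀ X j i, (R.reg (L X) j i).SumOf (R.reg X j i) fun _ : Unit => R.reg X (j + 1) i
  zero : ∀ X, ZeroCyclesFrom C (L X) fun _ : Fin 1 => X

/-- `T` is a class of rational varieties: their zero-cycles are supported in dimension `0`, and for
every `X` it contains blow-ups `B` along `X` of projective spaces `P` in which `X` has arbitrarily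
large codimension `c + 1`: `H^p(B, q) = H^p(P, q) ⊕ ⨁ H^{p-2a}(X, q-a)`, `0 < a ≤ c`. -/
structure IsRationalClass (C : CycleData S) (R : RegData S) (T : S.Obj → Prop) : Prop where
  zero : ∀ B, T B → ZeroCyclesIn C 0 B
  blowUp : ∀ (X : S.Obj) (m : ℕ), ∃ (B P : S.Obj) (c : ℕ), T B ∧ m ≤ c ∧
    ∀ i, (R.reg B 0 i).SumOf (R.reg P 0 i) fun a : Fin c => R.reg X (a + 1) i

/-! ### The statements -/

/-- If the zero-cycles of `X` come from the varieties `Y t` (of any dimensions), and if the regulators
in all weights `> dim + 1` are isomorphisms in dimension `< dim X`, then Q1 for the `Y t` implies Q1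
for `X`, and the statement on the weights `> dim + 1` for the `Y t` implies the one for `X`. -/
def Governed (C : CycleData S) (R : RegData S) : Prop :=
  ∀ (X : S.Obj) (ι : Type) [Fintype ι] (Y : ι → S.Obj), ZeroCyclesFrom C X Y →
    (∀ W : S.Obj, W.dim < X.dim → HighWeights R W) →
    ((∀ t, Q1 R (Y t)) → Q1 R X) ∧ ((∀ t, HighWeights R (Y t)) → HighWeights R X)

/-- Q1 holds for all `X` of dimension `m + 1` whose zero-cycles come from varieties of dimension `≤ m`
and members of `G` if and only if it holds for the varieties `L Y` with `dim Y = m` and for the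
members of `G`. -/
def InDimension (C : CycleData S) (R : RegData S) (L : S.Obj → S.Obj) (m : ℕ)
    (G : S.Obj → Prop) : Prop :=
  (∀ X : S.Obj, X.dim = m + 1 → ZeroCyclesFromClass C (fun Y => G Y ∨ Y.dim ≤ m) X → Q1 R X) ↔
    (∀ Y : S.Obj, Y.dim = m → Q1 R (L Y)) ∧ ∀ Y, G Y → Q1 R Y

/-- Q1 holds for all `X` whose zero-cycles are supported in dimension `≤ r` if and only if it holds
for the members of `T` (the rational varieties) and for the varieties of dimension `≤ r`. -/
def ForSupport (C : CycleData S) (R : RegData S) (T : S.Obj → Prop) (r : ℕ) : Prop :=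
  (∀ X : S.Obj, ZeroCyclesIn C r X → Q1 R X) ↔
    (∀ B, T B → Q1 R B) ∧ ∀ Y : S.Obj, Y.dim ≤ r → Q1 R Y

/-- Q1 holds for the members of `T` (the rational varieties) and for all `X` whose zero-cycles come
from members of `G` if and only if it holds for the members of `T` and for the members of `G`. -/
def ForClass (C : CycleData S) (R : RegData S) (T G : S.Obj → Prop) : Prop :=
  (∀ X : S.Obj, (T X ∨ ZeroCyclesFromClass C G X) → Q1 R X) ↔
    (∀ B, T B → Q1 R B) ∧ ∀ Y, G Y → Q1 R Y

end Pool.Agent.R387.BZ
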