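import Mathlib
import Pool.Agent.R387.BZ.Defs

/-!
# Zero-cycles and the regulators in weight `dim + 1`: proofs
-/

set_option autoImplicit false

open Pool.Agent.R904.RW (ext ext_tmul Iso ExactSeq IsSum)
open scoped TensorProduct

namespace Pool.Agent.R387.BZ

/-! ### Linear algebra -/

section Abs

variable {A D : Type*} [AddCommGroup A] [Module ℝ A] [AddCommGroup D] [Module ℝ D]
  {τ : Type} [Fintype τ] {A' D' : τ → Type*} [∀ t, AddCommGroup (A' t)] [∀ t, Module ℝ (A' t)]
  [∀ t, AddCommGroup (D' t)] [∀ t, Module ℝ (D' t)] (T : A →ₗ[ℝ] D) (T' : ∀ t, A' t →ₗ[ℝ] D' t)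
  (a : ∀ t, A →ₗ[ℝ] A' t) (a' : ∀ t, D →ₗ[ℝ] D' t) (b : ∀ t, A' t →ₗ[ℝ] A)
  (b' : ∀ t, D' t →ₗ[ℝ] D)

theorem retract_inj (h1 : ∀ t x, T' t (a t x) = a' t (T x)) (h3 : ∀ x, ∑ t, b t (a t x) = x)
    (hT : ∀ t, Function.Injective (T' t)) : Function.Injective T := by
  rw [← LinearMap.ker_eq_bot, LinearMap.ker_eq_bot']
  intro x hx
  rw [← h3 x]
  refine Finset.sum_eq_zero fun t _ => ?_
  have h4 : a t x = 0 := hT t (by rw [h1, hx, map_zero, map_zero])
  rw [h4, map_zero]

theorem retract_range (h2 : ∀ t y, T (b t y) = b' t (T' t y)) (h3 : ∀ x, ∑ t, b' t (a' t x) = x)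
    {x : D} (hx : ∀ t, a' t x ∈ LinearMap.range (T' t)) : x ∈ LinearMap.range T := by
  rw [← h3 x]
  refine Submodule.sum_mem _ fun t _ => ?_
  obtain ⟨y, hy⟩ := hx t
  exact ⟨b t y, by rw [h2, hy]⟩

theorem ker_eq_ker (φ ψ : D →ₗ[ℝ] ℝ) (hφ : Function.Surjective φ) (hψ : Function.Surjective ψ)
    (h : ∀ x, φ x = 0 → ψ x = 0) (x : D) : ψ x = 0 ↔ φ x = 0 := by
  obtain ⟨u, hu⟩ := hφ 1
  have h1 : ∀ y, ψ y = φ y * ψ u := by
    intro y
    have h2 : φ (y - φ y • u) = 0 := by
      rw [map_sub, map_smul, hu, smul_eq_mul, mul_one, sub_self]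
    have h3 := h _ h2
    rw [map_sub, map_smul, smul_eq_mul, sub_eq_zero] at h3
    exact h3
  have h4 : ψ u ≠ 0 := by
    intro h0
    obtain ⟨v, hv⟩ := hψ 1
    rw [h1, h0, mul_zero] at hv
    exact zero_ne_one hv
  rw [h1 x, mul_eq_zero]
  exact ⟨fun h5 => h5.resolve_right h4, fun h5 => Or.inl h5⟩

end Abs

section Ext

variable {M D M' D' : Type} [AddCommGroup M] [Module ℚ M] [AddCommGroup D] [Module ℝ D]
  [AddCommGroup M'] [Module ℚ M'] [AddCommGroup D'] [Module ℝ D']

theorem ext_baseChange (r : M →+ D) (r' : M' →+ D') (a : M →ₗ[ℚ] M') (a' : D →ₗ[ℝ] D')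
    (h : ∀ x, r' (a x) = a' (r x)) (z : ℝ ⊗[ℚ] M) :
    ext r' (a.baseChange ℝ z) = a' (ext r z) := by
  induction z using TensorProduct.induction_on with
  | zero => simp only [map_zero]
  | add x y hx hy => simp only [map_add, hx, hy]
  | tmul c m =>
    rw [LinearMap.baseChange_tmul, ext_tmul, ext_tmul, h, map_smul]

theorem sum_baseChange {τ : Type} [Fintype τ] {N : τ → Type} [∀ t, AddCommGroup (N t)]
    [∀ t, Module ℚ (N t)] (a : ∀ t, M →ₗ[ℚ] N t) (b : ∀ t, N t →ₗ[ℚ] M)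
    (h : ∀ x, ∑ t, b t (a t x) = x) (z : ℝ ⊗[ℚ] M) :
    ∑ t, (b t).baseChange ℝ ((a t).baseChange ℝ z) = z := by
  induction z using TensorProduct.induction_on with
  | zero => simp only [map_zero, Finset.sum_const_zero]
  | add x y hx hy =>
    simp only [map_add, Finset.sum_add_distrib, hx, hy]
  | tmul c m =>
    simp only [LinearMap.baseChange_tmul]
    rw [← TensorProduct.tmul_sum, h]

end Ext

/-- The identity of `P` is a sum of composites through the `P' t`. -/
structure Retract (P : Reg) {τ : Type} [Fintype τ] (P' : τ → Reg) where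
  a : ∀ t, RMap P (P' t)
  b : ∀ t, RMap (P' t) P
  hM : ∀ x, ∑ t, (b t).m ((a t).m x) = x
  hD : ∀ x, ∑ t, (b t).d ((a t).d x) = x

theorem Retract.injective {P : Reg} {τ : Type} [Fintype τ] {P' : τ → Reg} (r : Retract P P')
    (h : ∀ t, Function.Injective (ext (P' t).r)) : Function.Injective (ext P.r) :=
  retract_inj _ (fun t => ext (P' t).r) (fun t => (r.a t).m.baseChange ℝ) (fun t => (r.a t).d)
    (fun t => (r.b t).m.baseChange ℝ) (fun t x => ext_baseChange _ _ _ _ (r.a t).comm x)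
    (sum_baseChange _ _ r.hM) h

theorem Retract.range {P : Reg} {τ : Type} [Fintype τ] {P' : τ → Reg} (r : Retract P P')
    {x : P.D} (h : ∀ t, (r.a t).d x ∈ LinearMap.range (ext (P' t).r)) :
    x ∈ LinearMap.range (ext P.r) :=
  retract_range _ (fun t => ext (P' t).r) (fun t => (r.a t).d)
    (fun t => (r.b t).m.baseChange ℝ) (fun t => (r.b t).d)
    (fun t x => ext_baseChange _ _ _ _ (r.b t).comm x) r.hD h

theorem Retract.iso {P : Reg} {τ : Type} [Fintype τ] {P' : τ → Reg} (r : Retract P P')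
    (h : ∀ t, (P' t).IsIso) : P.IsIso := by
  refine ⟨r.injective fun t => (h t).1, fun x => ?_⟩
  exact r.range fun t => (h t).2 _

variable {S : VarClass} {C : CycleData S} {R : RegData S}

/-- the regulators through which the identity factors -/
def through (R : RegData S) (j i : ℕ) {ι : Type} (Y : ι → S.Obj) {n : ℕ} (W : Fin n → S.Obj)
    (e : Fin n → ℕ) : ι ⊕ Fin n → Reg :=
  Sum.elim (fun t => R.reg (Y t) j i) fun t => R.reg (W t) (j + e t) i

/-- the action on an element of the motivic cohomology, as a homomorphism -/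
noncomputable def evM (h : IsAction C R) {X Y : S.Obj} (j i : ℕ) (x : (R.reg X j i).M) :
    Cyc X.V Y.V →+ (R.reg Y j i).M :=
  AddMonoidHom.mk' (fun z => (R.act j i z).m x) fun z w => (h.add j i z w).1 x

/-- the action on an element of the Deligne cohomology, as a homomorphism -/
noncomputable def evD (h : IsAction C R) {X Y : S.Obj} (j i : ℕ) (x : (R.reg X j i).D) :
    Cyc X.V Y.V →+ (R.reg Y j i).D :=
  AddMonoidHom.mk' (fun z => (R.act j i z).d x) fun z w => (h.add j i z w).2 x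

theorem retract_core (h : IsRegTheory C R) {X : S.Obj} {ι : Type} [Fintype ι] {Y : ι → S.Obj}
    (a : ∀ t, Cyc X.V (Y t).V) (b : ∀ t, Cyc (Y t).V X.V) (z : Cyc X.V X.V)
    (hr : diagonal X.V - ∑ t, C.comp (a t) (b t) - z ∈ C.rat X X) (j i : ℕ) {n : ℕ} (W : Fin n → S.Obj)
    (e : Fin n → ℕ) (c : ∀ t, RMap (R.reg X j i) (R.reg (W t) (j + e t) i))
    (d : ∀ t, RMap (R.reg (W t) (j + e t) i) (R.reg X j i))
    (hz : (R.act j i z).IsSumComp d c) :
    ∃ r : Retract (R.reg X j i) (through R j i Y W e),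
        ∀ t, ∃ z : Cyc X.V (Y t).V, r.a (Sum.inl t) = R.act j i z := by
  classical
  refine ⟨⟨Sum.rec (fun t => R.act j i (a t)) c, Sum.rec (fun t => R.act j i (b t)) d, ?_, ?_⟩,
    fun t => ⟨a t, rfl⟩⟩
  · intro x
    have h1 : evM h.action j i x _ = 0 := (h.action.rat j i _ hr).1 x
    rw [map_sub, map_sub, map_sum, sub_sub, sub_eq_zero] at h1
    rw [Fintype.sum_sum_type]
    refine Eq.trans ?_ (h1.symm.trans ((h.action.diag X j i).1 x))
    refine congrArg₂ (· + ·) (Finset.sum_congr rfl fun t _ => ?_) (hz.1 x).symm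
    exact ((h.action.comp j i (a t) (b t)).1 x).symm
  · intro x
    have h1 : evD h.action j i x _ = 0 := (h.action.rat j i _ hr).2 x
    rw [map_sub, map_sub, map_sum, sub_sub, sub_eq_zero] at h1
    rw [Fintype.sum_sum_type]
    refine Eq.trans ?_ (h1.symm.trans ((h.action.diag X j i).2 x))
    refine congrArg₂ (· + ·) (Finset.sum_congr rfl fun t _ => ?_) (hz.2 x).symm
    exact ((h.action.comp j i (a t) (b t)).2 x).symm

/-- Zero-cycles give retracts. -/
theorem exists_retract (h : IsRegTheory C R) {X : S.Obj} {ι : Type} [Fintype ι] {Y : ι → S.Obj}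
    (hX : ZeroCyclesFrom C X Y) (j i : ℕ) :
    ∃ (n : ℕ) (W : Fin n → S.Obj) (e : Fin n → ℕ),
      (∀ t, 1 ≤ e t ∧ (W t).dim + e t = X.dim) ∧
      ∃ r : Retract (R.reg X j i) (through R j i Y W e),
        ∀ t, ∃ z : Cyc X.V (Y t).V, r.a (Sum.inl t) = R.act j i z := by
  obtain ⟨a, b, z, hz, hr⟩ := hX
  obtain ⟨n, W, e, hW, c, d, hz'⟩ := h.factors z hz j i
  exact ⟨n, W, e, hW, retract_core h a b z hr j i W e c d hz'⟩

/-- Direct summands give retracts. -/
theorem exists_retract_summand (h : IsRegTheory C R) {X : S.Obj} {ι : Type} [Fintype ι] {Y : ι → S.Obj}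
    (hX : SummandOf C X Y) (j i : ℕ) :
    ∃ r : Retract (R.reg X j i) (through R j i Y (Fin.elim0 : Fin 0 → S.Obj) Fin.elim0),
        ∀ t, ∃ z : Cyc X.V (Y t).V, r.a (Sum.inl t) = R.act j i z := by
  obtain ⟨a, b, hr⟩ := hX
  refine retract_core h a b 0 (by rwa [sub_zero]) j i (Fin.elim0 : Fin 0 → S.Obj)
    (Fin.elim0 : Fin 0 → ℕ) (fun t => Fin.elim0 t) (fun t => Fin.elim0 t) ?_
  constructor
  · intro x
    rw [Finset.univ_eq_empty, Finset.sum_empty]
    exact map_zero (evM h.action j i x)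
  · intro x
    rw [Finset.univ_eq_empty, Finset.sum_empty]
    exact map_zero (evD h.action j i x)

theorem tr_ext (h : IsRegTheory C R) (X : S.Obj) (z : ℝ ⊗[ℚ] (R.reg X 0 0).M) :
    R.tr X (ext (R.reg X 0 0).r z) = 0 := by
  induction z using TensorProduct.induction_on with
  | zero => rw [map_zero, map_zero]
  | add u v hu hv => rw [map_add, map_add, hu, hv, add_zero]
  | tmul c m => rw [ext_tmul, map_smul, h.trace.reg, smul_zero]

theorem mem_range_iff_tr (h : IsRegTheory C R) {X : S.Obj} (hX : (R.reg X 0 0).IsExact)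
    (x : (R.reg X 0 0).D) : R.tr X x = 0 ↔ x ∈ LinearMap.range (ext (R.reg X 0 0).r) := by
  obtain ⟨-, φ, hφ, hs⟩ := hX
  rw [ker_eq_ker φ (R.tr X) hs (h.trace.surjective X) ?_ x]
  · exact hφ x
  · intro y hy
    obtain ⟨z, rfl⟩ := (hφ y).1 hy
    exact tr_ext h X z

theorem iso_of_zeroCycles (h : IsRegTheory C R) {X : S.Obj} {ι : Type} [Fintype ι] {Y : ι → S.Obj}
    (hX : ZeroCyclesFrom C X Y) (j i : ℕ)
    (hW : ∀ (W : S.Obj) (e : ℕ), 1 ≤ e → W.dim + e = X.dim → (R.reg W (j + e) i).IsIso)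
    (hY : ∀ t, (R.reg (Y t) j i).IsIso) : (R.reg X j i).IsIso := by
  obtain ⟨n, W, e, he, r, -⟩ := exists_retract h hX j i
  refine r.iso ?_
  rintro (t | t)
  · exact hY t
  · exact hW _ _ (he t).1 (he t).2

/-- the exact sequence, from a retract -/
theorem exact_of_retract (h : IsRegTheory C R) {X : S.Obj} {ι : Type} [Fintype ι] {Y : ι → S.Obj} {n : ℕ}
    {W : Fin n → S.Obj} {e : Fin n → ℕ} (r : Retract (R.reg X 0 0) (through R 0 0 Y W e))
    (hr : ∀ t, ∃ z : Cyc X.V (Y t).V, r.a (Sum.inl t) = R.act 0 0 z)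
    (hW : ∀ t, (R.reg (W t) (0 + e t) 0).IsIso) (hY : ∀ t, (R.reg (Y t) 0 0).IsExact) :
    (R.reg X 0 0).IsExact := by
  refine ⟨r.injective ?_, R.tr X, ?_, h.trace.surjective X⟩
  · rintro (t | t)
    · exact (hY t).1
    · exact (hW t).1
  · intro x
    constructor
    · intro hx
      refine r.range (x := x) ?_
      rintro (t | t)
      · obtain ⟨z, hz⟩ := hr t
        rw [hz]
        refine (mem_range_iff_tr h (hY t) _).1 ?_
        obtain ⟨δ, hδ⟩ := h.trace.act z
        exact (hδ x).trans (by rw [hx, mul_zero])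
      · exact (hW t).2 _
    · rintro ⟨z, rfl⟩
      exact tr_ext h X z

/-- `Q1` for direct summands -/
theorem q1_of_summand (h : IsRegTheory C R) {X : S.Obj} {ι : Type} [Fintype ι] {Y : ι → S.Obj}
    (hX : SummandOf C X Y) (hY : ∀ t, Q1 R (Y t)) : Q1 R X := by
  refine ⟨fun i hi => ?_, ?_⟩
  · obtain ⟨r, -⟩ := exists_retract_summand h hX 0 i
    refine r.iso ?_
    rintro (t | t)
    · exact (hY t).1 i hi
    · exact Fin.elim0 t
  · obtain ⟨r, hr⟩ := exists_retract_summand h hX 0 0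
    exact exact_of_retract h r hr (fun t => Fin.elim0 t) fun t => (hY t).2

theorem exact_of_zeroCycles (h : IsRegTheory C R) {X : S.Obj} {ι : Type} [Fintype ι] {Y : ι → S.Obj}
    (hX : ZeroCyclesFrom C X Y)
    (hW : ∀ (W : S.Obj) (e : ℕ), 1 ≤ e → W.dim + e = X.dim → (R.reg W e 0).IsIso)
    (hY : ∀ t, (R.reg (Y t) 0 0).IsExact) : (R.reg X 0 0).IsExact := by
  obtain ⟨n, W, e, he, r, hr⟩ := exists_retract h hX 0 0
  refine exact_of_retract h r hr (fun t => ?_) hY
  rw [zero_add]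
  exact hW _ _ (he t).1 (he t).2

/-- `Q1` is governed by the zero-cycles -/
theorem q1_of_zeroCycles (h : IsRegTheory C R) {X : S.Obj} {ι : Type} [Fintype ι] {Y : ι → S.Obj}
    (hX : ZeroCyclesFrom C X Y)
    (hW : ∀ (W : S.Obj) (e : ℕ), 1 ≤ e → W.dim + e = X.dim → ∀ i, (R.reg W e i).IsIso)
    (hY : ∀ t, Q1 R (Y t)) : Q1 R X :=
  ⟨fun i hi => iso_of_zeroCycles h hX 0 i
    (fun W e h1 h2 => by rw [zero_add]; exact hW W e h1 h2 i) fun t => (hY t).1 i hi,
    exact_of_zeroCycles h hX (fun W e h1 h2 => hW W e h1 h2 0) fun t => (hY t).2⟩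

theorem high_of_zeroCycles (h : IsRegTheory C R) {X : S.Obj} {ι : Type} [Fintype ι] {Y : ι → S.Obj}
    (hX : ZeroCyclesFrom C X Y) (hW : ∀ W : S.Obj, W.dim < X.dim → HighWeights R W)
    (hY : ∀ t, HighWeights R (Y t)) : HighWeights R X :=
  fun j hj i => iso_of_zeroCycles h hX j i
    (fun W e h1 h2 => hW W (by omega) (j + e) (by omega) i) fun t => hY t j hj i

/-! ### Products with the projective line -/

theorem line_iso {L : S.Obj → S.Obj} (hL : IsLine C R L) (X : S.Obj) (j i : ℕ) :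
    (R.reg (L X) j i).IsIso ↔ (R.reg X j i).IsIso ∧ (R.reg X (j + 1) i).IsIso := by
  have h1 := IsSum.iso_iff (hL.sum X j i)
  unfold Reg.IsIso
  rw [h1]
  simp

theorem line_q1 (h : IsRegTheory C R) {L : S.Obj → S.Obj} (hL : IsLine C R L) (X : S.Obj) :
    Q1 R (L X) ↔ Q1 R X ∧ ∀ i, (R.reg X 1 i).IsIso := by
  have h0 : (R.reg (L X) 0 0).IsExact ↔ (R.reg X 0 0).IsExact ∧ (R.reg X 1 0).IsIso := by
    have h1 := IsSum.exact_iff (hL.sum X 0 0) fun _ => h.top X (0 + 1) (by norm_num)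
    unfold Reg.IsIso Reg.IsExact
    rw [h1]
    simp
  unfold Q1
  rw [h0]
  constructor
  · rintro ⟨h1, h2, h3⟩
    refine ⟨⟨fun i hi => ((line_iso hL X 0 i).1 (h1 i hi)).1, h2⟩, fun i => ?_⟩
    rcases Nat.eq_zero_or_pos i with rfl | hi
    · exact h3
    · exact ((line_iso hL X 0 i).1 (h1 i hi)).2
  · rintro ⟨⟨h1, h2⟩, h3⟩
    exact ⟨fun i hi => (line_iso hL X 0 i).2 ⟨h1 i hi, h3 i⟩, h2, h3 0⟩

theorem iterate_dim {L : S.Obj → S.Obj} (hL : IsLine C R L) (X : S.Obj) (e : ℕ) :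
    (L^[e] X).dim = X.dim + e := by
  induction e with
  | zero => rfl
  | succ e ih => rw [Function.iterate_succ_apply', hL.dim, ih, Nat.add_assoc]

theorem iso_of_iterate {L : S.Obj → S.Obj} (hL : IsLine C R L) (X : S.Obj) (j i e : ℕ)
    (h : (R.reg (L^[e] X) j i).IsIso) : (R.reg X (j + e) i).IsIso := by
  induction e generalizing j with
  | zero => exact h
  | succ e ih =>
    rw [Function.iterate_succ_apply'] at h
    have := ih (j + 1) ((line_iso hL _ j i).1 h).2
    rw [show j + (e + 1) = j + 1 + e by omega]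
    exact this

theorem q1_of_iterate (h : IsRegTheory C R) {L : S.Obj → S.Obj} (hL : IsLine C R L) (X : S.Obj) (e : ℕ)
    (hX : Q1 R (L^[e] X)) : Q1 R X := by
  induction e with
  | zero => exact hX
  | succ e ih =>
    rw [Function.iterate_succ_apply'] at hX
    exact ih ((line_q1 h hL _).1 hX).1

theorem zeroCyclesFrom_self (h : IsRegTheory C R) (X : S.Obj) :
    ZeroCyclesFrom C X fun _ : Fin 1 => X := by
  refine ⟨fun _ => diagonal X.V, fun _ => diagonal X.V, 0, ⟨∅, isClosed_empty, ?_, ?_⟩, ?_⟩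
  · intro h0
    have : genericPoint X.V.X ∈ (∅ : Set X.V.X) := by rw [h0]; trivial
    exact this
  · intro x hx
    exact absurd rfl hx
  · have h1 := h.comp_diag X
    rw [Finset.univ_unique, Finset.sum_singleton, sub_zero]
    have h2 := (C.rat X X).neg_mem h1
    rwa [neg_sub] at h2

theorem mem_class (h : IsRegTheory C R) {G : S.Obj → Prop} {X : S.Obj} (hX : G X) :
    ZeroCyclesFromClass C G X := ⟨1, fun _ => X, fun _ => hX, zeroCyclesFrom_self h X⟩

/-- In dimension `m + 1`: varieties with zero-cycles which come from varieties of dimension `≤ m` and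
from members of the class `G`. -/
theorem dimension_iff (h : IsRegTheory C R) {L : S.Obj → S.Obj} (hL : IsLine C R L) (m : ℕ)
    (G : S.Obj → Prop) (hG : ∀ Y, G Y → Y.dim = m + 1) : InDimension C R L m G := by
  constructor
  · intro H
    refine ⟨fun Y hY => ?_, fun Y hY => H Y (hG Y hY) (mem_class h (Or.inl hY))⟩
    refine H (L Y) (by rw [hL.dim, hY]) ⟨1, fun _ => Y, fun _ => Or.inr ?_, hL.zero Y⟩
    exact hY.le
  · rintro ⟨H, HG⟩ X hX ⟨n, Y, hY, hXY⟩
    have key : ∀ (W : S.Obj) (e : ℕ), W.dim + e = m → Q1 R (L (L^[e] W)) := by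
      intro W e he
      refine H _ ?_
      rw [iterate_dim hL, he]
    refine q1_of_zeroCycles h hXY ?_ ?_
    · intro W e he hWe i
      obtain ⟨e, rfl⟩ : ∃ e', e = e' + 1 := ⟨e - 1, by omega⟩
      have h1 := ((line_q1 h hL _).1 (key W e (by omega))).2 i
      have h2 := iso_of_iterate hL W 1 i e h1
      rwa [Nat.add_comm 1 e] at h2
    · intro t
      rcases hY t with ht | ht
      · exact HG _ ht
      · have ht' : (Y t).dim ≤ m := ht
        have h1 := ((line_q1 h hL _).1 (key (Y t) (m - (Y t).dim) (by omega))).1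
        exact q1_of_iterate h hL _ _ h1

/-! ### Rational varieties -/

theorem high_of_rational (h : IsRegTheory C R) {T : S.Obj → Prop} (hT : IsRationalClass C R T)
    (H : ∀ B, T B → Q1 R B) (X : S.Obj) : HighWeights R X := by
  intro j hj i
  obtain ⟨B, P, c, hB, hc, hs⟩ := hT.blowUp X j
  have h1 := H B hB
  obtain ⟨a, ha⟩ : ∃ a : Fin c, (a : ℕ) + 1 = j := ⟨⟨j - 1, by omega⟩, by
    change j - 1 + 1 = j
    omega⟩
  subst ha
  rcases Nat.eq_zero_or_pos i with rfl | hi
  · have h2 := (IsSum.exact_iff (hs 0) fun a => h.top X (a + 1) (by omega)).1 h1.2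
    exact h2.2 a
  · exact ((IsSum.iso_iff (hs i)).1 (h1.1 i hi)).2 a

theorem class_iff (h : IsRegTheory C R) {T : S.Obj → Prop} (hT : IsRationalClass C R T)
    (G : S.Obj → Prop) : ForClass C R T G := by
  constructor
  · intro H
    exact ⟨fun B hB => H B (Or.inl hB), fun Y hY => H Y (Or.inr (mem_class h hY))⟩
  · rintro ⟨H1, H2⟩ X (hX | ⟨n, Y, hY, hXY⟩)
    · exact H1 X hX
    · exact q1_of_zeroCycles h hXY
        (fun W e he _ i => high_of_rational h hT H1 W e he i) fun t => H2 _ (hY t)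

theorem support_iff (h : IsRegTheory C R) {T : S.Obj → Prop} (hT : IsRationalClass C R T) (r : ℕ) :
    ForSupport C R T r := by
  have h1 := class_iff h hT (fun Y => Y.dim ≤ r)
  constructor
  · intro H
    refine h1.1 ?_
    rintro X (hX | hX)
    · obtain ⟨n, Y, hY, hXY⟩ := hT.zero X hX
      exact H X ⟨n, Y, fun t => le_trans (hY t) (Nat.zero_le r), hXY⟩
    · exact H X hX
  · intro H X hX
    exact h1.2 H X (Or.inr hX)

theorem rational_iff_high (h : IsRegTheory C R) {T : S.Obj → Prop} (hT : IsRationalClass C R T)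
    (h0 : ∀ X : S.Obj, X.dim = 0 → Q1 R X) :
    (∀ B, T B → Q1 R B) ↔ ∀ X, HighWeights R X := by
  constructor
  · exact high_of_rational h hT
  · intro H B hB
    obtain ⟨n, Y, hY, hBY⟩ := hT.zero B hB
    exact q1_of_zeroCycles h hBY (fun W e he _ i => H W e he i)
      fun t => h0 _ (Nat.le_zero.1 (hY t))

end Pool.Agent.R387.BZ
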